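import Mathlib
import Pool.Agent.H348R6.TF4

/-!
# No bounding, closed tree forcing with a small chain condition at a successor cardinal

Let `κ = lam⁺` be a successor cardinal. There is no tree forcing on `2^{<κ}` which is at the same
time `< κ`-closed, `κ^κ`-bounding and `κ⁺`-cc. This is proved in ZFC, with no extra hypotheses.

Idea: by the chain condition each level of a condition has at most `κ` nodes, so the generic
branch restricted to `α < κ` can be coded by an ordinal below `κ`. If the function sending `α` to
this code is bounded by a function of the ground model, then some condition has at most `lam`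
nodes on each level. But closedness and splitting give, by induction on `i < κ`, that some level
has at least `2^|i|` nodes, which for `i = lam` contradicts Cantor's theorem.
-/

set_option autoImplicit false

namespace Pool.Agent.Results.MP_c1fc37_lc.NoTreeForcing

open Cardinal Pool.Agent.H348R6.TF

universe u

theorem result (lam κ : Cardinal.{u}) (hlam : ℵ₀ ≤ lam) (hκ : κ = Order.succ lam) :
    ¬ ∃ P : Set (Set (Node κ)), P.Nonempty ∧ IsTreeForcing P ∧
      LtClosed κ P ∧ Bounding κ P ∧ SuccCC κ P := by
  rintro ⟨P, hne, hP, hcl, hb, hcc⟩
  exact tree_main hlam hκ hne hP hcl hb hcc

end Pool.Agent.Results.MP_c1fc37_lc.NoTreeForcing
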